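import Pool.Agent.H67.FG.Gue
import Pool.Agent.H30.FG.Lucas

/-!
# FG, module DEG (helper65): the values of the lines are functions of low degree

Partition of unity: one guess `s` (a set of gates) for each point; the guesses are consistent exactly when they are
the values `g y` (`guess_unique`). The gate step is the hypothesis `hcount` (`ind_count_pow` for prime powers).
-/

set_option autoImplicit false

namespace Pool.Agent.H65.FG

open Pool.Agent.H67.FG
open Pool.Agent.H3.Frg (Fm)

variable {V Y k : Type} [Field k]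

theorem ind_neg (P : Y → Prop) : (ind (fun y => ¬ P y) : Y → k) = 1 - ind P := by
  funext y
  by_cases h : P y <;> simp [ind, h]

/-- the guess `G` is consistent at the gate `C` -/
def Cst (m : ℕ) (r : Y → Fm (V ⊕ Bool) → Option Bool) (G : Fo V → Bool) (y : Y) : Fo V → Prop
  | .mod a n f => decide ((Finset.univ.filter fun i : Fin n => (r y (tr G (f i))).getD false = true).card % m = a % m) =
      G (.mod a n f)
  | _ => True

theorem getD_iff (o : Option Bool) : o.getD false = true ↔ o = some true := by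
  cases o with
  | none => simp
  | some b => cases b <;> simp

theorem cst_iff (m : ℕ) (r : Y → Fm (V ⊕ Bool) → Option Bool) (G : Fo V → Bool) (y : Y) (A : Fo V) :
    (∀ a n f, Fo.mod a n f ∈ A.gates →
      decide ((Finset.univ.filter fun i : Fin n => (r y (tr G (f i))).getD false = true).card % m = a % m) =
        G (.mod a n f)) ↔ ∀ C ∈ A.gates, Cst m r G y C := by
  constructor
  · intro h C hC
    obtain ⟨a, n, f, rfl⟩ := hC.2
    exact h a n f hC
  · intro h a n f hC
    exact h _ hC

/-- the guess with exactly the true gates `s` -/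
noncomputable def gs (s : Finset (Fo V)) : Fo V → Bool := open scoped Classical in fun B => decide (B ∈ s)

/-- degree of the consistency at one gate -/
theorem cst_deg (𝓐 : Alg k Y) (m : ℕ)
    (hcount : ∀ (n : ℕ) (b : Fin n → Y → Bool) (D a : ℕ), (∀ i, ind (fun y => b i y = true) ∈ 𝓐.Deg D) →
      ind (fun y => (Finset.univ.filter fun i => b i y = true).card % m = a % m) ∈ 𝓐.Deg ((m - 1) * D))
    (r : Y → Fm (V ⊕ Bool) → Option Bool) (A : Fo V) (D0 : ℕ)
    (hdeg : ∀ (G : Fo V → Bool), ∀ B ∈ A.subs, ∀ b, ind (fun y => r y (tr G B) = b) ∈ 𝓐.Deg D0)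
    (G : Fo V → Bool) (C : Fo V) (hC : C ∈ A.gates) :
    ind (fun y => Cst m r G y C) ∈ 𝓐.Deg ((m - 1) * D0) := by
  obtain ⟨a, n, f, rfl⟩ := hC.2
  have h1 := hcount n (fun i y => (r y (tr G (f i))).getD false) D0 a (fun i => by
    have h2 := hdeg G (f i) (mem_subs_of_mem_mod hC.1 i) (some true)
    have h3 : (fun y => (r y (tr G (f i))).getD false = true) = fun y => r y (tr G (f i)) = some true := by
      funext y
      exact propext (getD_iff _)
    rw [h3]
    exact h2)
  cases hG : G (.mod a n f) with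
  | true =>
    have h4 : (fun y => Cst m r G y (Fo.mod a n f)) = fun y =>
        (Finset.univ.filter fun i => (r y (tr G (f i))).getD false = true).card % m = a % m := by
      funext y
      apply propext
      simp only [Cst, hG, decide_eq_true_eq]
    rw [h4]
    exact h1
  | false =>
    have h4 : (fun y => Cst m r G y (Fo.mod a n f)) = fun y =>
        ¬ (Finset.univ.filter fun i => (r y (tr G (f i))).getD false = true).card % m = a % m := by
      funext y
      apply propext
      simp only [Cst, hG, decide_eq_false_iff_not]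
    rw [h4, ind_neg]
    exact (𝓐.Deg _).sub_mem (𝓐.one _) h1

theorem prod_mem (𝓐 : Alg k Y) {T : Type} (s : Finset T) (F : T → Y → k) (D : ℕ) (h : ∀ C ∈ s, F C ∈ 𝓐.Deg D) :
    (∏ C ∈ s, F C) ∈ 𝓐.Deg (s.card * D) := by
  classical
  induction s using Finset.induction_on with
  | empty =>
    rw [Finset.prod_empty]
    exact 𝓐.one _
  | insert C s hC ih =>
    rw [Finset.prod_insert hC, Finset.card_insert_of_notMem hC]
    have h1 := 𝓐.mul (h C (Finset.mem_insert_self _ _)) (ih fun B hB => h B (Finset.mem_insert_of_mem hB))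
    have h2 : (s.card + 1) * D = D + s.card * D := by ring
    rw [h2]
    exact h1

/-- the partition of unity -/
theorem part (m : ℕ) (r : Y → Fm (V ⊕ Bool) → Option Bool)
    (g : Y → Fo V → Bool) (hg1 : ∀ y a n f, g y (.mod a n f) =
      decide ((Finset.univ.filter fun i : Fin n => g y (f i) = true).card % m = a % m))
    (hg2 : ∀ y A, g y A = (r y (tr (g y) A)).getD false) (A : Fo V) (B : Fo V) (hB : B ∈ A.subs) (b : Option Bool) :
    (ind (fun y => r y (tr (g y) B) = b) : Y → k) = ∑ s ∈ (gates_finite A).toFinset.powerset,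
      (∏ C ∈ (gates_finite A).toFinset, ind (fun y => Cst m r (gs s) y C)) * ind (fun y => r y (tr (gs s) B) = b) := by
  classical
  funext y
  rw [Finset.sum_apply]
  have hmem : ∀ C, C ∈ (gates_finite A).toFinset ↔ C ∈ A.gates := fun C => (gates_finite A).mem_toFinset
  have hprod : ∀ s, (∏ C ∈ (gates_finite A).toFinset, (ind (fun y => Cst m r (gs s) y C) : Y → k)) y =
      if ∀ C ∈ A.gates, gs s C = g y C then 1 else 0 := by
    intro s
    rw [Finset.prod_apply]
    have hu := guess_unique m (r y) (fun a n f => hg1 y a n f) (fun A => hg2 y A) A (gs s)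
    have hc := cst_iff m r (gs s) y A
    split_ifs with h
    · refine Finset.prod_eq_one fun C hC => ?_
      have h1 := hc.1 (hu.2 h) C ((hmem C).1 hC)
      simp only [ind, if_pos h1]
    · have h1 : ¬ ∀ C ∈ A.gates, Cst m r (gs s) y C := fun h2 => h (hu.1 (hc.2 h2))
      push Not at h1
      obtain ⟨C, hC, hC'⟩ := h1
      refine Finset.prod_eq_zero ((hmem C).2 hC) ?_
      simp only [ind, if_neg hC']
  let s0 : Finset (Fo V) := (gates_finite A).toFinset.filter fun C => g y C = true
  have hs0 : ∀ C ∈ A.gates, gs s0 C = g y C := by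
    intro C hC
    unfold gs
    rw [Bool.eq_iff_iff, decide_eq_true_eq]
    simp only [s0, Finset.mem_filter, hmem]
    exact ⟨fun h => h.2, fun h => ⟨hC, h⟩⟩
  rw [Finset.sum_eq_single s0]
  · rw [Pi.mul_apply, hprod, if_pos hs0, one_mul]
    have h1 : tr (gs s0) B = tr (g y) B := tr_congr B fun C hC => hs0 C (gates_mono hB hC)
    by_cases h2 : r y (tr (g y) B) = b <;> simp [ind, h1, h2]
  · intro s hs hne
    rw [Pi.mul_apply, hprod, if_neg, zero_mul]
    intro h
    apply hne
    ext C
    by_cases hC : C ∈ A.gates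
    · have h1 := (h C hC).trans (hs0 C hC).symm
      unfold gs at h1
      rw [Bool.eq_iff_iff, decide_eq_true_eq, decide_eq_true_eq] at h1
      exact h1
    · have h1 : C ∉ s := fun h2 => hC ((hmem C).1 (Finset.mem_powerset.1 hs h2))
      have h2 : C ∉ s0 := fun h2 => hC ((hmem C).1 (Finset.mem_filter.1 h2).1)
      exact ⟨fun h => (h1 h).elim, fun h => (h2 h).elim⟩
  · intro h
    exact (h (Finset.mem_powerset.2 (Finset.filter_subset _ _))).elim

/-- the values of a line have low degree; `m`: the modulus of the gates -/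
theorem deg_line_gen (𝓐 : Alg k Y) (m : ℕ)
    (hcount : ∀ (n : ℕ) (b : Fin n → Y → Bool) (D a : ℕ), (∀ i, ind (fun y => b i y = true) ∈ 𝓐.Deg D) →
      ind (fun y => (Finset.univ.filter fun i => b i y = true).card % m = a % m) ∈ 𝓐.Deg ((m - 1) * D))
    (r : Y → Fm (V ⊕ Bool) → Option Bool)
    (g : Y → Fo V → Bool) (hg1 : ∀ y a n f, g y (.mod a n f) =
      decide ((Finset.univ.filter fun i : Fin n => g y (f i) = true).card % m = a % m))
    (hg2 : ∀ y A, g y A = (r y (tr (g y) A)).getD false) (A : Fo V) (t D0 : ℕ) (ht : A.gates.ncard ≤ t)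
    (hdeg : ∀ (G : Fo V → Bool), ∀ B ∈ A.subs, ∀ b, ind (fun y => r y (tr G B) = b) ∈ 𝓐.Deg D0)
    (hz : ∀ (G : Fo V → Bool), ∀ B ∈ A.subs, ind (fun y => r y (tr G B) = none) ∈ 𝓐.Z)
    (hK : t * ((m - 1) * D0) + D0 ≤ 𝓐.K) : ∀ B ∈ A.subs,
      ind (fun y => g y B = true) ∈ 𝓐.Deg (t * ((m - 1) * D0) + D0) ∧
      ind (fun y => r y (tr (g y) B) = none) ∈ 𝓐.Deg (t * ((m - 1) * D0) + D0) ∧
      ind (fun y => r y (tr (g y) B) = none) ∈ 𝓐.Z := by
  intro B hB
  have hcard : (gates_finite A).toFinset.card ≤ t := by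
    rwa [← Set.ncard_eq_toFinset_card A.gates (gates_finite A)]
  have hP : ∀ s : Finset (Fo V), (∏ C ∈ (gates_finite A).toFinset, (ind (fun y => Cst m r (gs s) y C) : Y → k)) ∈
      𝓐.Deg (t * ((m - 1) * D0)) := fun s =>
    𝓐.mono (Nat.mul_le_mul_right _ hcard) (prod_mem 𝓐 _ _ _ fun C hC =>
      cst_deg 𝓐 m hcount r A D0 hdeg (gs s) C ((gates_finite A).mem_toFinset.1 hC))
  have hD : ∀ b, ind (fun y => r y (tr (g y) B) = b) ∈ 𝓐.Deg (t * ((m - 1) * D0) + D0) := by
    intro b
    rw [part m r g hg1 hg2 A B hB b]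
    exact (𝓐.Deg _).sum_mem fun s _ => 𝓐.mul (hP s) (hdeg (gs s) B hB b)
  refine ⟨?_, hD none, ?_⟩
  · have h1 : (fun y => g y B = true) = fun y => r y (tr (g y) B) = some true := by
      funext y
      rw [hg2 y B]
      exact propext (getD_iff _)
    rw [h1]
    exact hD _
  · rw [part m r g hg1 hg2 A B hB none]
    exact 𝓐.Z.sum_mem fun s _ => 𝓐.zmul hK (hP s) (hdeg (gs s) B hB none) (hz (gs s) B hB)

/-- the gate step for prime powers, for families indexed by `Fin n` -/
theorem count_fin {p : ℕ} [Fact p.Prime] (𝓐 : Alg (ZMod p) Y) (e n : ℕ) (b : Fin n → Y → Bool) (D a : ℕ)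
    (h : ∀ i, ind (fun y => b i y = true) ∈ 𝓐.Deg D) :
    ind (fun y => (Finset.univ.filter fun i => b i y = true).card % p ^ e = a % p ^ e) ∈ 𝓐.Deg ((p ^ e - 1) * D) := by
  have h1 := Pool.Agent.H30.FG.ind_count_pow 𝓐 (b := b) (List.finRange n) D a e fun i _ => h i
  have h2 : (fun y => (Finset.univ.filter fun i => b i y = true).card % p ^ e = a % p ^ e) =
      fun y => ((List.finRange n).countP fun i => b i y) % p ^ e = a % p ^ e := by
    funext y
    have h3 : (Finset.univ.filter fun i => b i y = true).card = (List.finRange n).countP fun i => b i y := by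
      have h4 : (Finset.univ.filter fun i : Fin n => b i y = true).card =
          Multiset.countP (fun i => b i y = true) (Finset.univ : Finset (Fin n)).val := by
        rw [Finset.card_def, Finset.filter_val, Multiset.countP_eq_card_filter]
      rw [h4]
      have h5 : (Finset.univ : Finset (Fin n)).val = (List.finRange n : Multiset (Fin n)) := rfl
      rw [h5, Multiset.coe_countP]
      congr 1
      funext i
      simp
    rw [h3]
  rw [h2]
  exact h1

/-- the values of a line have low degree: gates modulo a prime power -/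
theorem deg_line_pow {p : ℕ} [Fact p.Prime] (e : ℕ) (𝓐 : Alg (ZMod p) Y) (r : Y → Fm (V ⊕ Bool) → Option Bool)
    (g : Y → Fo V → Bool) (hg1 : ∀ y a n f, g y (.mod a n f) =
      decide ((Finset.univ.filter fun i : Fin n => g y (f i) = true).card % p ^ e = a % p ^ e))
    (hg2 : ∀ y A, g y A = (r y (tr (g y) A)).getD false) (A : Fo V) (t D0 : ℕ) (ht : A.gates.ncard ≤ t)
    (hdeg : ∀ (G : Fo V → Bool), ∀ B ∈ A.subs, ∀ b, ind (fun y => r y (tr G B) = b) ∈ 𝓐.Deg D0)
    (hz : ∀ (G : Fo V → Bool), ∀ B ∈ A.subs, ind (fun y => r y (tr G B) = none) ∈ 𝓐.Z)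
    (hK : t * ((p ^ e - 1) * D0) + D0 ≤ 𝓐.K) : ∀ B ∈ A.subs,
      ind (fun y => g y B = true) ∈ 𝓐.Deg (t * ((p ^ e - 1) * D0) + D0) ∧
      ind (fun y => r y (tr (g y) B) = none) ∈ 𝓐.Deg (t * ((p ^ e - 1) * D0) + D0) ∧
      ind (fun y => r y (tr (g y) B) = none) ∈ 𝓐.Z :=
  deg_line_gen 𝓐 (p ^ e) (fun n b D a h => count_fin 𝓐 e n b D a h) r g hg1 hg2 A t D0 ht hdeg hz hK

variable {p : ℕ} [Fact p.Prime]

/-- the value of a subformula of the line `A` has low degree, and it is undecided only in `Z` -/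
theorem deg_line (𝓐 : Alg (ZMod p) Y) (r : Y → Fm (V ⊕ Bool) → Option Bool)
    (g : Y → Fo V → Bool) (hg1 : ∀ y a n f, g y (.mod a n f) =
      decide ((Finset.univ.filter fun i => g y (f i) = true).card % p = a % p))
    (hg2 : ∀ y A, g y A = (r y (tr (g y) A)).getD false) (A : Fo V) (t D0 : ℕ) (ht : A.gates.ncard ≤ t)
    (hdeg : ∀ (G : Fo V → Bool), ∀ B ∈ A.subs, ∀ b, ind (fun y => r y (tr G B) = b) ∈ 𝓐.Deg D0)
    (hz : ∀ (G : Fo V → Bool), ∀ B ∈ A.subs, ind (fun y => r y (tr G B) = none) ∈ 𝓐.Z)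
    (hK : t * ((p - 1) * D0) + D0 ≤ 𝓐.K) : ∀ B ∈ A.subs,
      ind (fun y => g y B = true) ∈ 𝓐.Deg (t * ((p - 1) * D0) + D0) ∧
      ind (fun y => r y (tr (g y) B) = none) ∈ 𝓐.Deg (t * ((p - 1) * D0) + D0) ∧
      ind (fun y => r y (tr (g y) B) = none) ∈ 𝓐.Z :=
  deg_line_gen 𝓐 p (fun n b D a h => by
    have h1 := count_fin 𝓐 1 n b D a h
    rwa [pow_one] at h1) r g hg1 hg2 A t D0 ht hdeg hz hK

end Pool.Agent.H65.FG
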